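import Pool.Agent.Results.MP_dcf2cf_an.CompactAdjointOrbits

/-!
# MP_dcf2cf_an: positive answer for analytic operators and their preadjoints
-/

open Filter Topology

namespace Pool.Agent.Results.MP_dcf2cf_an.Analytic

open Pool.Agent.Results.MP_dcf2cf_an.Domination

/-- A sequence of unit multiples in decreasing ranges has no relatively compact range. -/
lemma no_compact {E : Type*} [NormedAddCommGroup E] [NormedSpace ℂ E] (S : ℕ → Set E)
    (hS : ∀ m, ∀ a : ℂ, ∀ e ∈ S m, a • e ∈ S m) (hcore : (⋂ m, closure (S m)) = {0})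
    (v : ℕ → E) (hv : ∀ m, ∀ᶠ k in atTop, v k ∈ S m) (hv0 : ∀ᶠ k in atTop, v k ≠ 0)
    (hc : IsCompact (closure (Set.range fun k : ℕ => ((‖v k‖⁻¹ : ℝ) : ℂ) • v k))) : False := by
  set u : ℕ → E := fun k => ((‖v k‖⁻¹ : ℝ) : ℂ) • v k with hu
  obtain ⟨a, -, ψ, hψ, hlim⟩ := hc.tendsto_subseq (x := u) (fun k => subset_closure ⟨k, rfl⟩)
  have hnorm : ‖a‖ = 1 := by
    have h1 : Tendsto (fun k => ‖u (ψ k)‖) atTop (𝓝 ‖a‖) := hlim.norm
    have h2 : ∀ᶠ k in atTop, ‖u (ψ k)‖ = 1 := by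
      filter_upwards [hψ.tendsto_atTop.eventually hv0] with k hk
      show ‖((‖v (ψ k)‖⁻¹ : ℝ) : ℂ) • v (ψ k)‖ = 1
      rw [norm_smul, Complex.norm_real, norm_inv, Real.norm_of_nonneg (norm_nonneg _)]
      exact inv_mul_cancel₀ (norm_ne_zero_iff.mpr hk)
    exact tendsto_nhds_unique h1 ((tendsto_congr' h2).mpr tendsto_const_nhds)
  have hmem : a ∈ ⋂ m, closure (S m) := by
    rw [Set.mem_iInter]
    intro m
    refine mem_closure_of_tendsto hlim ?_
    filter_upwards [hψ.tendsto_atTop.eventually (hv m)] with k hk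
    exact hS m _ _ hk
  rw [hcore, Set.mem_singleton_iff] at hmem
  rw [hmem, norm_zero] at hnorm
  exact zero_ne_one hnorm

/-- **Theorem.** Suppose the numerical orbit of `(x, f)` is dense and the tails of the orbit of `x`
(or of the adjoint orbit of `f`) span subspaces whose closures intersect in `0`.  Then `r T` is
weakly numerically hypercyclic for every `r ≥ 1`. -/
theorem result {X : Type*} [NormedAddCommGroup X] [NormedSpace ℂ X] [CompleteSpace X]
    (T : X →L[ℂ] X) (x : X) (f : X →L[ℂ] ℂ)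
    (hd : Dense (Set.range fun n : ℕ => f ((T ^ n) x)))
    (hcore : (⋂ m : ℕ, closure (Submodule.span ℂ {z : X | ∃ k ≥ m, z = (T ^ k) x} : Set X))
        = {0} ∨
      (⋂ m : ℕ, closure (Submodule.span ℂ {g : X →L[ℂ] ℂ | ∃ k ≥ m, g = f.comp (T ^ k)} :
        Set (X →L[ℂ] ℂ))) = {0})
    (r : ℝ) (hr : 1 ≤ r) : WNH ((r : ℂ) • T) := by
  rcases hr.eq_or_lt with h1 | hr1
  · rw [← h1, Complex.ofReal_one, one_smul]; exact ⟨x, f, hd⟩
  by_contra hnot
  have hr0 : 0 < r := by linarith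
  have hbig : ∀ k : ℕ, ∃ n : ℕ, (k : ℝ) < ‖f ((T ^ n) x)‖ := by
    intro k
    obtain ⟨y, ⟨n, rfl⟩, hn⟩ := hd.exists_dist_lt (((k : ℝ) + 1 : ℝ) : ℂ) one_pos
    refine ⟨n, ?_⟩
    have h2 : ‖((((k : ℝ) + 1 : ℝ)) : ℂ)‖ = (k : ℝ) + 1 := by
      rw [Complex.norm_real, Real.norm_of_nonneg (by positivity)]
    have h3 := norm_sub_norm_le ((((k : ℝ) + 1 : ℝ)) : ℂ) (f ((T ^ n) x))
    rw [dist_eq_norm] at hn
    rw [h2] at h3
    linarith
  choose φ hφ using hbig
  have hφt : ∀ m : ℕ, ∀ᶠ k in atTop, m ≤ φ k := by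
    intro m
    obtain ⟨K, hK⟩ : ∃ K : ℕ, ∀ n < m, ‖f ((T ^ n) x)‖ ≤ K := by
      obtain ⟨K, hK⟩ := exists_nat_ge (∑ n ∈ Finset.range m, ‖f ((T ^ n) x)‖)
      refine ⟨K, fun n hn => le_trans ?_ hK⟩
      exact Finset.single_le_sum (f := fun n => ‖f ((T ^ n) x)‖) (fun j _ => norm_nonneg _)
        (Finset.mem_range.mpr hn)
    filter_upwards [eventually_ge_atTop K] with k hk
    by_contra hlt
    push Not at hlt
    have h2 := hK _ hlt
    have h3 := hφ k
    have h4 : (K : ℝ) ≤ k := by exact_mod_cast hk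
    linarith
  have hcast : Tendsto (fun k : ℕ => (k : ℝ)) atTop atTop := tendsto_natCast_atTop_atTop
  rcases hcore with hcore | hcore
  · have hf0 : 0 < ‖f‖ := by
      rw [norm_pos_iff]; rintro rfl
      have := hφ 0
      simp at this
    have hlow : ∀ k : ℕ, ‖f‖⁻¹ * (k : ℝ) ≤ r ^ φ k * ‖(T ^ φ k) x‖ := by
      intro k
      have h2 : (k : ℝ) ≤ ‖f‖ * ‖(T ^ φ k) x‖ := (hφ k).le.trans (f.le_opNorm _)
      have h3 : ‖f‖⁻¹ * (k : ℝ) ≤ ‖(T ^ φ k) x‖ := by
        rw [inv_mul_le_iff₀ hf0]; exact h2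
      refine h3.trans (le_mul_of_one_le_left (norm_nonneg _) (one_le_pow₀ hr))
    have hg : Tendsto (fun k => r ^ φ k * ‖(T ^ φ k) x‖) atTop atTop :=
      tendsto_atTop_mono hlow (hcast.const_mul_atTop (by positivity))
    refine no_compact (fun m => (Submodule.span ℂ {z : X | ∃ k ≥ m, z = (T ^ k) x} : Set X))
      ?_ hcore (fun k => (T ^ φ k) x) ?_ ?_ (CompactOrbits.result T r hr0 hnot x φ hg)
    · intro m a e he
      exact Submodule.smul_mem _ a he
    · intro m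
      filter_upwards [hφt m] with k hk
      exact Submodule.subset_span ⟨φ k, hk, rfl⟩
    · refine Eventually.of_forall fun k hk => ?_
      have h2 := hφ k
      rw [hk, map_zero, norm_zero] at h2
      exact absurd h2 (not_lt.mpr (Nat.cast_nonneg k))
  · have hx0 : 0 < ‖x‖ := by
      rw [norm_pos_iff]; rintro rfl
      have := hφ 0
      simp at this
    have hlow : ∀ k : ℕ, ‖x‖⁻¹ * (k : ℝ) ≤ r ^ φ k * ‖f.comp (T ^ φ k)‖ := by
      intro k
      have h2 : (k : ℝ) ≤ ‖f.comp (T ^ φ k)‖ * ‖x‖ :=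
        (hφ k).le.trans ((f.comp (T ^ φ k)).le_opNorm x)
      have h3 : ‖x‖⁻¹ * (k : ℝ) ≤ ‖f.comp (T ^ φ k)‖ := by
        rw [inv_mul_le_iff₀ hx0, mul_comm]; exact h2
      refine h3.trans (le_mul_of_one_le_left (norm_nonneg _) (one_le_pow₀ hr))
    have hg : Tendsto (fun k => r ^ φ k * ‖f.comp (T ^ φ k)‖) atTop atTop :=
      tendsto_atTop_mono hlow (hcast.const_mul_atTop (by positivity))
    refine no_compact (fun m => (Submodule.span ℂ
        {g : X →L[ℂ] ℂ | ∃ k ≥ m, g = f.comp (T ^ k)} : Set (X →L[ℂ] ℂ))) ?_ hcore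
      (fun k => f.comp (T ^ φ k)) ?_ ?_ (CompactAdjointOrbits.result T r hr0 hnot f φ hg)
    · intro m a e he
      exact Submodule.smul_mem _ a he
    · intro m
      filter_upwards [hφt m] with k hk
      exact Submodule.subset_span ⟨φ k, hk, rfl⟩
    · refine Eventually.of_forall fun k hk => ?_
      have h2 := hφ k
      have h3 : f ((T ^ φ k) x) = (f.comp (T ^ φ k)) x := rfl
      rw [h3, hk] at h2
      simp only [FunLike.coe_zero, Pi.zero_apply, norm_zero] at h2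
      exact absurd h2 (not_lt.mpr (Nat.cast_nonneg k))

end Pool.Agent.Results.MP_dcf2cf_an.Analytic
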