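import Pool.Agent.Results.MP_dcf2cf_an.CompactOrbits

/-!
# MP_dcf2cf_an: normalised adjoint orbits of a counterexample are relatively compact
-/

open Filter Topology

namespace Pool.Agent.Results.MP_dcf2cf_an.CompactAdjointOrbits

open Pool.Agent.Results.MP_dcf2cf_an.Domination
open Pool.Agent.Results.MP_dcf2cf_an.CompactOrbits (le_pairNorm close_to_multiple
  norm_mul_norm_le diff_bound)

theorem result {X : Type*} [NormedAddCommGroup X] [NormedSpace ℂ X] [CompleteSpace X]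
    (T : X →L[ℂ] X) (r : ℝ) (hr : 0 < r) (hnot : ¬ WNH ((r : ℂ) • T)) (f : X →L[ℂ] ℂ)
    (φ : ℕ → ℕ)
    (hφ : Tendsto (fun k => r ^ φ k * ‖f.comp (T ^ φ k)‖) atTop atTop) :
    IsCompact (closure (Set.range fun k : ℕ =>
      ((‖f.comp (T ^ φ k)‖⁻¹ : ℝ) : ℂ) • f.comp (T ^ φ k))) := by
  classical
  set u : ℕ → X →L[ℂ] ℂ := fun k => ((‖f.comp (T ^ φ k)‖⁻¹ : ℝ) : ℂ) • f.comp (T ^ φ k) with hu
  by_contra hcon
  have hntb : ¬ TotallyBounded (Set.range u) := fun h =>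
    hcon (h.closure.isCompact_of_isClosed isClosed_closure)
  rw [Metric.totallyBounded_iff] at hntb
  push Not at hntb
  obtain ⟨ε, hε, hsep⟩ := hntb
  obtain ⟨ι, hι⟩ := Set.seq_of_forall_finite_exists
    (P := fun (k : ℕ) (S : Set ℕ) => ∀ j ∈ S, ε ≤ dist (u k) (u j)) (by
      intro S hS
      have h1 := hsep (u '' S) (hS.image u)
      rw [Set.not_subset] at h1
      obtain ⟨z, ⟨k, rfl⟩, hz⟩ := h1
      refine ⟨k, fun j hj => ?_⟩
      by_contra hlt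
      push Not at hlt
      apply hz
      simp only [Set.mem_iUnion]
      exact ⟨u j, ⟨j, hj, rfl⟩, hlt⟩)
  have hdist : ∀ m n, m < n → ε ≤ dist (u (ι n)) (u (ι m)) := fun m n h =>
    hι n (ι m) ⟨m, h, rfl⟩
  have hdist' : ∀ m n, m ≠ n → ε ≤ dist (u (ι n)) (u (ι m)) := by
    intro m n hmn
    rcases lt_or_gt_of_ne hmn with h | h
    · exact hdist m n h
    · rw [dist_comm]; exact hdist n m h
  have hinj : Function.Injective ι := by
    intro m n h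
    by_contra hne
    have := hdist' m n hne
    rw [h, dist_self] at this
    linarith
  have hιt : Tendsto ι atTop atTop := by
    have := hinj.tendsto_cofinite
    rwa [Nat.cofinite_eq_atTop] at this
  set θ : ℕ → ℕ := fun n => φ (ι n) with hθdef
  set w : ℕ → X →L[ℂ] ℂ := fun n => u (ι n) with hw
  have hθ : Tendsto (fun n => r ^ θ n * ‖f.comp (T ^ θ n)‖) atTop atTop := hφ.comp hιt
  have hw1 : ∀ n, ‖w n‖ ≤ 1 := by
    intro n
    show ‖((‖f.comp (T ^ θ n)‖⁻¹ : ℝ) : ℂ) • f.comp (T ^ θ n)‖ ≤ 1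
    rw [norm_smul, Complex.norm_real, norm_inv, Real.norm_of_nonneg (norm_nonneg _)]
    exact inv_mul_le_one
  have hfw : ∀ (y : X) n, ‖f ((T ^ θ n) y)‖ = ‖f.comp (T ^ θ n)‖ * ‖w n y‖ := by
    intro y n
    have e1 : f ((T ^ θ n) y) = (f.comp (T ^ θ n)) y := rfl
    have e2 : w n y = ((‖f.comp (T ^ θ n)‖⁻¹ : ℝ) : ℂ) * (f.comp (T ^ θ n)) y := rfl
    rw [e1, e2, norm_mul, Complex.norm_real, norm_inv, Real.norm_of_nonneg (norm_nonneg _)]
    by_cases h0 : ‖f.comp (T ^ θ n)‖ = 0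
    · have h1 : ‖(f.comp (T ^ θ n)) y‖ ≤ 0 := by
        calc _ ≤ ‖f.comp (T ^ θ n)‖ * ‖y‖ := (f.comp (T ^ θ n)).le_opNorm y
          _ = 0 := by rw [h0, zero_mul]
      rw [h0, zero_mul]
      exact le_antisymm h1 (norm_nonneg _)
    · field_simp
  -- the weak star cluster point
  let v : ℕ → WeakDual ℂ X := fun n => StrongDual.toWeakDual (w n)
  obtain ⟨U₀, -, hU₀⟩ := (WeakDual.isCompact_closedBall (𝕜 := ℂ) (E := X) 0 1).ultrafilter_le_nhds
    ((hyperfilter ℕ : Ultrafilter ℕ).map v) (by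
      rw [le_principal_iff, Ultrafilter.mem_coe, Ultrafilter.mem_map]
      refine Filter.univ_mem' fun n => ?_
      exact mem_closedBall_zero_iff.mpr (hw1 n))
  set U : X →L[ℂ] ℂ := WeakDual.toStrongDual U₀ with hU
  have hlim : ∀ y : X, Tendsto (fun n => w n y) (hyperfilter ℕ : Filter ℕ) (𝓝 (U y)) := by
    intro y
    have h1 : Tendsto v (hyperfilter ℕ : Filter ℕ) (𝓝 U₀) := hU₀
    exact ((WeakDual.eval_continuous y).tendsto U₀).comp h1
  set c : ℝ := ε / 8 with hc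
  have hc0 : 0 < c := by positivity
  have hev : ∀ᶠ n in atTop, ¬ (∀ y : X, U y = 0 → ‖y‖ ≤ 1 → ‖w n y‖ ≤ c) := by
    by_contra hne
    have hfr : ∃ᶠ n in atTop, ∀ y : X, U y = 0 → ‖y‖ ≤ 1 → ‖w n y‖ ≤ c := by
      rw [Filter.Frequently]; exact hne
    rw [Nat.frequently_atTop_iff_infinite] at hfr
    set Bd : Set ℕ := {n | ∀ y : X, U y = 0 → ‖y‖ ≤ 1 → ‖w n y‖ ≤ c} with hBd
    have hex : ∀ n ∈ Bd, ∃ a : ℂ, ∀ y : X, ‖w n y - a * U y‖ ≤ c * ‖y‖ :=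
      fun n hn => close_to_multiple U (w n) c hc0.le hn
    choose! a ha using hex
    have hb : ∀ n ∈ Bd, ‖a n * (‖U‖ : ℂ)‖ ≤ 1 + c := by
      intro n hn
      refine norm_mul_norm_le U (a n) (1 + c) (by positivity) fun y => ?_
      have h2 : ‖w n y‖ ≤ ‖y‖ := by
        calc ‖w n y‖ ≤ ‖w n‖ * ‖y‖ := (w n).le_opNorm _
          _ ≤ 1 * ‖y‖ := by gcongr; exact hw1 n
          _ = ‖y‖ := one_mul _
      calc ‖a n * U y‖ = ‖w n y - (w n y - a n * U y)‖ := by rw [sub_sub_cancel]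
        _ ≤ ‖w n y‖ + ‖w n y - a n * U y‖ := norm_sub_le _ _
        _ ≤ ‖y‖ + c * ‖y‖ := add_le_add h2 (ha n hn y)
        _ = (1 + c) * ‖y‖ := by ring
    obtain ⟨t, -, htf, hcov⟩ := (isCompact_closedBall (0 : ℂ) (1 + c)).finite_cover_balls
      (half_pos hc0)
    have hcen : ∀ n ∈ Bd, ∃ z ∈ t, dist (a n * (‖U‖ : ℂ)) z < c / 2 := by
      intro n hn
      have h1 := hcov (mem_closedBall_zero_iff.mpr (hb n hn))
      simp only [Set.mem_iUnion] at h1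
      obtain ⟨z, hz, hzz⟩ := h1
      exact ⟨z, hz, hzz⟩
    choose! z hz using hcen
    obtain ⟨n, hn, m, hm, hnm, hzz⟩ := hfr.exists_ne_map_eq_of_mapsTo
      (f := z) (t := t) (fun n hn => (hz n hn).1) htf
    have hdd : ‖a n * (‖U‖ : ℂ) - a m * (‖U‖ : ℂ)‖ ≤ c := by
      rw [← dist_eq_norm]
      have h1 := (hz n hn).2
      have h2 := (hz m hm).2
      rw [← hzz, dist_comm] at h2
      calc dist (a n * (‖U‖ : ℂ)) (a m * (‖U‖ : ℂ))
          ≤ dist (a n * (‖U‖ : ℂ)) (z n) + dist (z n) (a m * (‖U‖ : ℂ)) := dist_triangle _ _ _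
        _ ≤ c := by linarith
    have hfin : ‖w n - w m‖ ≤ 3 * c := by
      refine ContinuousLinearMap.opNorm_le_bound _ (by positivity) fun y => ?_
      have h1 := ha n hn y
      have h2 := ha m hm y
      have h3 : ‖(a n - a m) * U y‖ ≤ c * ‖y‖ := diff_bound U (a n) (a m) c hdd y
      have h4 : (w n - w m) y = (w n y - a n * U y) - (w m y - a m * U y)
          + (a n - a m) * U y := by
        have : (w n - w m) y = w n y - w m y := rfl
        rw [this]; ring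
      rw [h4]
      calc _ ≤ ‖(w n y - a n * U y) - (w m y - a m * U y)‖ + ‖(a n - a m) * U y‖ :=
            norm_add_le _ _
        _ ≤ ‖w n y - a n * U y‖ + ‖w m y - a m * U y‖ + ‖(a n - a m) * U y‖ := by
            gcongr; exact norm_sub_le _ _
        _ ≤ 3 * c * ‖y‖ := by linarith
    have h5 := hdist' m n (Ne.symm hnm)
    rw [dist_eq_norm] at h5
    have h6 : ‖u (ι n) - u (ι m)‖ ≤ 3 * c := hfin
    rw [hc] at h6
    linarith
  -- the subspaces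
  set Y : Submodule ℂ X := LinearMap.ker U.toLinearMap with hY
  have hYmem : ∀ y : X, y ∈ Y ↔ U y = 0 := by
    intro y; simp [hY]
  have hYc : IsClosed (Y : Set X) := by
    have : (Y : Set X) = U ⁻¹' {0} := by
      ext y; simp [hYmem y]
    rw [this]
    exact isClosed_singleton.preimage U.continuous
  set F : Submodule ℂ (X →L[ℂ] ℂ) := Submodule.span ℂ {f} with hF
  have hFc : IsClosed (F : Set (X →L[ℂ] ℂ)) := Submodule.closed_of_finiteDimensional _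
  have hf0 : 0 < ‖f‖ := by
    rw [norm_pos_iff]
    rintro rfl
    have h1 : ∀ᶠ k in atTop, (1 : ℝ) ≤ r ^ φ k * ‖(0 : X →L[ℂ] ℂ).comp (T ^ φ k)‖ :=
      hφ.eventually_ge_atTop 1
    obtain ⟨k, hk⟩ := h1.exists
    rw [ContinuousLinearMap.zero_comp, norm_zero, mul_zero] at hk
    linarith
  have hlow : ∀ᶠ n in atTop, c / ‖f‖ * ‖f.comp (T ^ θ n)‖ ≤ pairNorm T Y F (θ n) := by
    filter_upwards [hev] with n hn
    push Not at hn
    obtain ⟨y, hy0, hy1, hyc⟩ := hn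
    have hfF : ((‖f‖⁻¹ : ℝ) : ℂ) • f ∈ F := F.smul_mem _ (Submodule.mem_span_singleton_self f)
    have hf1 : ‖((‖f‖⁻¹ : ℝ) : ℂ) • f‖ ≤ 1 := by
      rw [norm_smul, Complex.norm_real, norm_inv, Real.norm_of_nonneg (norm_nonneg _)]
      exact inv_mul_le_one
    refine le_trans ?_ (le_pairNorm T Y F (θ n) ((hYmem y).mpr hy0) hfF hy1 hf1)
    have e1 : (((‖f‖⁻¹ : ℝ) : ℂ) • f) ((T ^ θ n) y) = ((‖f‖⁻¹ : ℝ) : ℂ) * f ((T ^ θ n) y) := rfl
    rw [e1, norm_mul, Complex.norm_real, norm_inv, Real.norm_of_nonneg (norm_nonneg _), hfw]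
    calc c / ‖f‖ * ‖f.comp (T ^ θ n)‖ = ‖f‖⁻¹ * (‖f.comp (T ^ θ n)‖ * c) := by ring
      _ ≤ ‖f‖⁻¹ * (‖f.comp (T ^ θ n)‖ * ‖w n y‖) := by gcongr
  have hgrow : Tendsto (fun n => r ^ θ n * pairNorm T Y F (θ n)) atTop atTop := by
    have h1 : Tendsto (fun n => c / ‖f‖ * (r ^ θ n * ‖f.comp (T ^ θ n)‖)) atTop atTop :=
      hθ.const_mul_atTop (by positivity)
    refine tendsto_atTop_mono' atTop ?_ h1
    filter_upwards [hlow] with n hn
    calc c / ‖f‖ * (r ^ θ n * ‖f.comp (T ^ θ n)‖)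
        = r ^ θ n * (c / ‖f‖ * ‖f.comp (T ^ θ n)‖) := by ring
      _ ≤ r ^ θ n * pairNorm T Y F (θ n) := by gcongr
  obtain ⟨O, -, ⟨⟨⟨y, hyY⟩, ⟨h, hhF⟩⟩, hp⟩, δ, hδ, K, hK⟩ :=
    core T r hr hnot Y F hYc hFc θ hgrow
  obtain ⟨l, hl⟩ := Submodule.mem_span_singleton.mp hhF
  have hUy : U y = 0 := (hYmem y).mp hyY
  have hlower : ∀ᶠ n in atTop, δ * (c / ‖f‖) ≤ ‖l‖ * ‖w n y‖ := by
    filter_upwards [hlow, eventually_ge_atTop K, hθ.eventually_gt_atTop 0] with n hn hnK hn0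
    have hpos : 0 < ‖f.comp (T ^ θ n)‖ := (pos_iff_pos_of_mul_pos hn0).mp (pow_pos hr _)
    have h1 := hK _ hp n hnK
    have h2 : ‖h ((T ^ θ n) y)‖ = ‖f.comp (T ^ θ n)‖ * (‖l‖ * ‖w n y‖) := by
      have e1 : h ((T ^ θ n) y) = l * f ((T ^ θ n) y) := by rw [← hl]; rfl
      rw [e1, norm_mul, hfw]; ring
    have h3 : δ * (c / ‖f‖ * ‖f.comp (T ^ θ n)‖) ≤ ‖f.comp (T ^ θ n)‖ * (‖l‖ * ‖w n y‖) := by
      rw [← h2]
      exact (mul_le_mul_of_nonneg_left hn hδ.le).trans h1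
    have h4 : ‖f.comp (T ^ θ n)‖ * (δ * (c / ‖f‖)) ≤
        ‖f.comp (T ^ θ n)‖ * (‖l‖ * ‖w n y‖) := by
      calc _ = δ * (c / ‖f‖ * ‖f.comp (T ^ θ n)‖) := by ring
        _ ≤ _ := h3
    exact le_of_mul_le_mul_left h4 hpos
  have hl0 : Tendsto (fun n => ‖l‖ * ‖w n y‖) (hyperfilter ℕ : Filter ℕ) (𝓝 0) := by
    have h1 := ((hlim y).norm).const_mul ‖l‖
    rw [hUy, norm_zero, mul_zero] at h1
    exact h1
  have hsm : ∀ᶠ n in (hyperfilter ℕ : Filter ℕ), ‖l‖ * ‖w n y‖ < δ * (c / ‖f‖) :=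
    hl0.eventually_lt_const (by positivity)
  have hlo : ∀ᶠ n in (hyperfilter ℕ : Filter ℕ), δ * (c / ‖f‖) ≤ ‖l‖ * ‖w n y‖ :=
    Nat.hyperfilter_le_atTop hlower
  obtain ⟨n, h1, h2⟩ := (hsm.and hlo).exists
  linarith

end Pool.Agent.Results.MP_dcf2cf_an.CompactAdjointOrbits
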