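import Pool.Agent.Results.MP_dcf2cf_an.Domination

/-!
# MP_dcf2cf_an: normalised orbits of a counterexample are relatively compact

If `r T` is not weakly numerically hypercyclic, then for every `x` and every sequence of exponents
`φ k` with `r ^ φ k * ‖T ^ φ k x‖ → ∞` the vectors `T ^ φ k x / ‖T ^ φ k x‖` form a relatively
norm compact set.
-/

open Filter Topology

namespace Pool.Agent.Results.MP_dcf2cf_an.CompactOrbits

open Pool.Agent.Results.MP_dcf2cf_an.Domination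

variable {X : Type*} [NormedAddCommGroup X] [NormedSpace ℂ X]

lemma le_pairNorm (T : X →L[ℂ] X) (Y : Submodule ℂ X) (F : Submodule ℂ (X →L[ℂ] ℂ)) (n : ℕ)
    {y : X} (hy : y ∈ Y) {f : X →L[ℂ] ℂ} (hf : f ∈ F) (hy1 : ‖y‖ ≤ 1) (hf1 : ‖f‖ ≤ 1) :
    ‖f ((T ^ n) y)‖ ≤ pairNorm T Y F n := by
  refine le_csSup ?_ ⟨y, hy, f, hf, hy1, hf1, rfl⟩
  refine ⟨‖T ^ n‖, ?_⟩
  rintro t ⟨y, -, f, -, hy, hf, rfl⟩
  calc ‖f ((T ^ n) y)‖ ≤ ‖f‖ * ‖(T ^ n) y‖ := f.le_opNorm _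
    _ ≤ 1 * (‖T ^ n‖ * ‖y‖) := by gcongr; exact (T ^ n).le_opNorm _
    _ ≤ 1 * (‖T ^ n‖ * 1) := by gcongr
    _ = ‖T ^ n‖ := by ring

/-- if `W` is small on the unit ball of `ker U` then it is close to a multiple of `U` -/
lemma close_to_multiple {E : Type*} [NormedAddCommGroup E] [NormedSpace ℂ E]
    (U W : E →L[ℂ] ℂ) (c : ℝ) (hc : 0 ≤ c)
    (h : ∀ f : E, U f = 0 → ‖f‖ ≤ 1 → ‖W f‖ ≤ c) :
    ∃ a : ℂ, ∀ g : E, ‖W g - a * U g‖ ≤ c * ‖g‖ := by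
  set F : Submodule ℂ E := LinearMap.ker U.toLinearMap with hF
  have hmem : ∀ f : E, f ∈ F ↔ U f = 0 := by
    intro f; simp [hF]
  let L : F →L[ℂ] ℂ := W.comp F.subtypeL
  have hL : ‖L‖ ≤ c := by
    refine ContinuousLinearMap.opNorm_le_of_unit_norm hc ?_
    intro f hf1
    exact h f.1 ((hmem _).mp f.2) (le_of_eq hf1)
  obtain ⟨V, hV, hVn⟩ := exists_extension_norm_eq F L
  have hVF : ∀ f : E, U f = 0 → V f = W f := by
    intro f hf
    have := hV ⟨f, (hmem f).mpr hf⟩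
    rw [this]
    rfl
  have hVb : ∀ g, ‖V g‖ ≤ c * ‖g‖ := by
    intro g
    calc ‖V g‖ ≤ ‖V‖ * ‖g‖ := V.le_opNorm g
      _ ≤ c * ‖g‖ := by
          gcongr
          rw [hVn]; exact hL
  by_cases h0 : ∀ g, U g = 0
  · refine ⟨0, fun g => ?_⟩
    rw [zero_mul, sub_zero, ← hVF g (h0 g)]
    exact hVb g
  · push Not at h0
    obtain ⟨g1, hg1⟩ := h0
    obtain ⟨g0, hU0⟩ : ∃ g0 : E, U g0 = 1 :=
      ⟨(U g1)⁻¹ • g1, by rw [map_smul, smul_eq_mul, inv_mul_cancel₀ hg1]⟩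
    refine ⟨W g0 - V g0, fun g => ?_⟩
    have hk : U (g - U g • g0) = 0 := by
      rw [map_sub, map_smul, hU0]; simp
    have h1 := hVF _ hk
    rw [map_sub, map_smul, map_sub, map_smul] at h1
    have h3 : W g - (W g0 - V g0) * U g = V g := by
      simp only [smul_eq_mul] at h1
      linear_combination (-1 : ℂ) * h1
    rw [h3]
    exact hVb g

lemma norm_mul_norm_le {E : Type*} [NormedAddCommGroup E] [NormedSpace ℂ E]
    (U : E →L[ℂ] ℂ) (a : ℂ) (B : ℝ) (hB : 0 ≤ B) (h : ∀ g : E, ‖a * U g‖ ≤ B * ‖g‖) :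
    ‖a * (‖U‖ : ℂ)‖ ≤ B := by
  have h1 : ‖a • U‖ ≤ B := ContinuousLinearMap.opNorm_le_bound _ hB h
  rw [norm_smul] at h1
  rw [norm_mul, Complex.norm_real, norm_norm]
  exact h1

lemma diff_bound {E : Type*} [NormedAddCommGroup E] [NormedSpace ℂ E]
    (U : E →L[ℂ] ℂ) (a b : ℂ) (c : ℝ) (h : ‖a * (‖U‖ : ℂ) - b * (‖U‖ : ℂ)‖ ≤ c) (g : E) :
    ‖(a - b) * U g‖ ≤ c * ‖g‖ := by
  calc ‖(a - b) * U g‖ = ‖a - b‖ * ‖U g‖ := norm_mul _ _
    _ ≤ ‖a - b‖ * (‖U‖ * ‖g‖) := by gcongr; exact U.le_opNorm g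
    _ = ‖a * (‖U‖ : ℂ) - b * (‖U‖ : ℂ)‖ * ‖g‖ := by
        rw [← sub_mul, norm_mul, Complex.norm_real, norm_norm]; ring
    _ ≤ c * ‖g‖ := by gcongr

theorem result {X : Type*} [NormedAddCommGroup X] [NormedSpace ℂ X] [CompleteSpace X]
    (T : X →L[ℂ] X) (r : ℝ) (hr : 0 < r) (hnot : ¬ WNH ((r : ℂ) • T)) (x : X) (φ : ℕ → ℕ)
    (hφ : Tendsto (fun k => r ^ φ k * ‖(T ^ φ k) x‖) atTop atTop) :
    IsCompact (closure (Set.range fun k : ℕ => ((‖(T ^ φ k) x‖⁻¹ : ℝ) : ℂ) • (T ^ φ k) x)) := by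
  classical
  set u : ℕ → X := fun k => ((‖(T ^ φ k) x‖⁻¹ : ℝ) : ℂ) • (T ^ φ k) x with hu
  by_contra hcon
  have hntb : ¬ TotallyBounded (Set.range u) := fun h =>
    hcon (h.closure.isCompact_of_isClosed isClosed_closure)
  rw [Metric.totallyBounded_iff] at hntb
  push Not at hntb
  obtain ⟨ε, hε, hsep⟩ := hntb
  obtain ⟨ι, hι⟩ := Set.seq_of_forall_finite_exists
    (P := fun (k : ℕ) (S : Set ℕ) => ∀ j ∈ S, ε ≤ dist (u k) (u j)) (by
      intro S hS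
      have h1 := hsep (u '' S) (hS.image u)
      rw [Set.not_subset] at h1
      obtain ⟨z, ⟨k, rfl⟩, hz⟩ := h1
      refine ⟨k, fun j hj => ?_⟩
      by_contra hlt
      push Not at hlt
      apply hz
      simp only [Set.mem_iUnion]
      exact ⟨u j, ⟨j, hj, rfl⟩, hlt⟩)
  have hdist : ∀ m n, m < n → ε ≤ dist (u (ι n)) (u (ι m)) := fun m n h =>
    hι n (ι m) ⟨m, h, rfl⟩
  have hdist' : ∀ m n, m ≠ n → ε ≤ dist (u (ι n)) (u (ι m)) := by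
    intro m n hmn
    rcases lt_or_gt_of_ne hmn with h | h
    · exact hdist m n h
    · rw [dist_comm]; exact hdist n m h
  have hinj : Function.Injective ι := by
    intro m n h
    by_contra hne
    have := hdist' m n hne
    rw [h, dist_self] at this
    linarith
  have hιt : Tendsto ι atTop atTop := by
    have := hinj.tendsto_cofinite
    rwa [Nat.cofinite_eq_atTop] at this
  set θ : ℕ → ℕ := fun n => φ (ι n) with hθdef
  set w : ℕ → X := fun n => u (ι n) with hw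
  have hθ : Tendsto (fun n => r ^ θ n * ‖(T ^ θ n) x‖) atTop atTop := hφ.comp hιt
  have hw1 : ∀ n, ‖w n‖ ≤ 1 := by
    intro n
    show ‖((‖(T ^ θ n) x‖⁻¹ : ℝ) : ℂ) • (T ^ θ n) x‖ ≤ 1
    rw [norm_smul, Complex.norm_real, norm_inv, norm_norm]
    exact inv_mul_le_one
  have hfw : ∀ (f : X →L[ℂ] ℂ) n, ‖f ((T ^ θ n) x)‖ = ‖(T ^ θ n) x‖ * ‖f (w n)‖ := by
    intro f n
    by_cases h0 : (T ^ θ n) x = 0
    · rw [h0]; simp
    · have hpos : 0 < ‖(T ^ θ n) x‖ := norm_pos_iff.mpr h0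
      show _ = ‖(T ^ θ n) x‖ * ‖f (((‖(T ^ θ n) x‖⁻¹ : ℝ) : ℂ) • (T ^ θ n) x)‖
      rw [map_smul, norm_smul, Complex.norm_real, norm_inv, norm_norm]
      field_simp
  -- the weak star cluster point
  let v : ℕ → WeakDual ℂ (X →L[ℂ] ℂ) := fun n =>
    StrongDual.toWeakDual (NormedSpace.inclusionInDoubleDual ℂ X (w n))
  obtain ⟨U₀, -, hU₀⟩ := (WeakDual.isCompact_closedBall (𝕜 := ℂ) (E := X →L[ℂ] ℂ) 0 1).ultrafilter_le_nhds
    ((hyperfilter ℕ : Ultrafilter ℕ).map v) (by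
      rw [le_principal_iff, Ultrafilter.mem_coe, Ultrafilter.mem_map]
      refine Filter.univ_mem' fun n => ?_
      exact mem_closedBall_zero_iff.mpr ((NormedSpace.double_dual_bound ℂ X (w n)).trans (hw1 n)))
  set U : (X →L[ℂ] ℂ) →L[ℂ] ℂ := WeakDual.toStrongDual U₀ with hU
  have hlim : ∀ g : X →L[ℂ] ℂ, Tendsto (fun n => g (w n)) (hyperfilter ℕ : Filter ℕ)
      (𝓝 (U g)) := by
    intro g
    have h1 : Tendsto v (hyperfilter ℕ : Filter ℕ) (𝓝 U₀) := hU₀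
    exact ((WeakDual.eval_continuous g).tendsto U₀).comp h1
  set c : ℝ := ε / 8 with hc
  have hc0 : 0 < c := by positivity
  -- eventually `w n` is not small on the unit ball of `ker U`
  have hev : ∀ᶠ n in atTop, ¬ (∀ f : X →L[ℂ] ℂ, U f = 0 → ‖f‖ ≤ 1 → ‖f (w n)‖ ≤ c) := by
    by_contra hne
    have hfr : ∃ᶠ n in atTop, ∀ f : X →L[ℂ] ℂ, U f = 0 → ‖f‖ ≤ 1 → ‖f (w n)‖ ≤ c := by
      rw [Filter.Frequently]; exact hne
    rw [Nat.frequently_atTop_iff_infinite] at hfr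
    set Bd : Set ℕ := {n | ∀ f : X →L[ℂ] ℂ, U f = 0 → ‖f‖ ≤ 1 → ‖f (w n)‖ ≤ c} with hBd
    have hex : ∀ n ∈ Bd, ∃ a : ℂ, ∀ g : X →L[ℂ] ℂ, ‖g (w n) - a * U g‖ ≤ c * ‖g‖ :=
      fun n hn => close_to_multiple U (NormedSpace.inclusionInDoubleDual ℂ X (w n)) c hc0.le hn
    choose! a ha using hex
    have hb : ∀ n ∈ Bd, ‖a n * (‖U‖ : ℂ)‖ ≤ 1 + c := by
      intro n hn
      refine norm_mul_norm_le U (a n) (1 + c) (by positivity) fun g => ?_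
      have h2 : ‖g (w n)‖ ≤ ‖g‖ := by
        calc ‖g (w n)‖ ≤ ‖g‖ * ‖w n‖ := g.le_opNorm _
          _ ≤ ‖g‖ * 1 := by gcongr; exact hw1 n
          _ = ‖g‖ := mul_one _
      calc ‖a n * U g‖ = ‖g (w n) - (g (w n) - a n * U g)‖ := by rw [sub_sub_cancel]
        _ ≤ ‖g (w n)‖ + ‖g (w n) - a n * U g‖ := norm_sub_le _ _
        _ ≤ ‖g‖ + c * ‖g‖ := add_le_add h2 (ha n hn g)
        _ = (1 + c) * ‖g‖ := by ring
    obtain ⟨t, -, htf, hcov⟩ := (isCompact_closedBall (0 : ℂ) (1 + c)).finite_cover_balls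
      (half_pos hc0)
    have hcen : ∀ n ∈ Bd, ∃ z ∈ t, dist (a n * (‖U‖ : ℂ)) z < c / 2 := by
      intro n hn
      have h1 := hcov (mem_closedBall_zero_iff.mpr (hb n hn))
      simp only [Set.mem_iUnion] at h1
      obtain ⟨z, hz, hzz⟩ := h1
      exact ⟨z, hz, hzz⟩
    choose! z hz using hcen
    obtain ⟨n, hn, m, hm, hnm, hzz⟩ := hfr.exists_ne_map_eq_of_mapsTo
      (f := z) (t := t) (fun n hn => (hz n hn).1) htf
    have hdd : ‖a n * (‖U‖ : ℂ) - a m * (‖U‖ : ℂ)‖ ≤ c := by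
      rw [← dist_eq_norm]
      have h1 := (hz n hn).2
      have h2 := (hz m hm).2
      rw [← hzz, dist_comm] at h2
      calc dist (a n * (‖U‖ : ℂ)) (a m * (‖U‖ : ℂ))
          ≤ dist (a n * (‖U‖ : ℂ)) (z n) + dist (z n) (a m * (‖U‖ : ℂ)) := dist_triangle _ _ _
        _ ≤ c := by linarith
    have hfin : ‖w n - w m‖ ≤ 3 * c := by
      refine NormedSpace.norm_le_dual_bound ℂ _ (by positivity) fun g => ?_
      have h1 := ha n hn g
      have h2 := ha m hm g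
      have h3 : ‖(a n - a m) * U g‖ ≤ c * ‖g‖ := diff_bound U (a n) (a m) c hdd g
      have h4 : g (w n - w m) = (g (w n) - a n * U g) - (g (w m) - a m * U g)
          + (a n - a m) * U g := by
        rw [map_sub]; ring
      rw [h4]
      calc _ ≤ ‖(g (w n) - a n * U g) - (g (w m) - a m * U g)‖ + ‖(a n - a m) * U g‖ :=
            norm_add_le _ _
        _ ≤ ‖g (w n) - a n * U g‖ + ‖g (w m) - a m * U g‖ + ‖(a n - a m) * U g‖ := by
            gcongr; exact norm_sub_le _ _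
        _ ≤ 3 * c * ‖g‖ := by linarith
    have h5 := hdist' m n (Ne.symm hnm)
    rw [dist_eq_norm] at h5
    have h6 : ‖u (ι n) - u (ι m)‖ ≤ 3 * c := hfin
    rw [hc] at h6
    linarith
  -- the subspaces
  set F : Submodule ℂ (X →L[ℂ] ℂ) := LinearMap.ker U.toLinearMap with hF
  have hFmem : ∀ f : X →L[ℂ] ℂ, f ∈ F ↔ U f = 0 := by
    intro f; simp [hF]
  have hFc : IsClosed (F : Set (X →L[ℂ] ℂ)) := by
    have : (F : Set (X →L[ℂ] ℂ)) = U ⁻¹' {0} := by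
      ext f; simp [hFmem f]
    rw [this]
    exact isClosed_singleton.preimage U.continuous
  set Y : Submodule ℂ X := Submodule.span ℂ {x} with hY
  have hYc : IsClosed (Y : Set X) := Submodule.closed_of_finiteDimensional _
  have hx0 : 0 < ‖x‖ := by
    rw [norm_pos_iff]
    rintro rfl
    have h1 : ∀ᶠ k in atTop, (1 : ℝ) ≤ r ^ φ k * ‖(T ^ φ k) (0 : X)‖ :=
      hφ.eventually_ge_atTop 1
    obtain ⟨k, hk⟩ := h1.exists
    rw [map_zero, norm_zero, mul_zero] at hk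
    linarith
  have hlow : ∀ᶠ n in atTop, c / ‖x‖ * ‖(T ^ θ n) x‖ ≤ pairNorm T Y F (θ n) := by
    filter_upwards [hev] with n hn
    push Not at hn
    obtain ⟨f, hf0, hf1, hfc⟩ := hn
    have hy : ((‖x‖⁻¹ : ℝ) : ℂ) • x ∈ Y := Y.smul_mem _ (Submodule.mem_span_singleton_self x)
    have hy1 : ‖((‖x‖⁻¹ : ℝ) : ℂ) • x‖ ≤ 1 := by
      rw [norm_smul, Complex.norm_real, norm_inv, norm_norm]
      exact inv_mul_le_one
    refine le_trans ?_ (le_pairNorm T Y F (θ n) hy ((hFmem f).mpr hf0) hy1 hf1)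
    rw [map_smul, map_smul, norm_smul, Complex.norm_real, norm_inv, norm_norm, hfw]
    calc c / ‖x‖ * ‖(T ^ θ n) x‖ = ‖x‖⁻¹ * (‖(T ^ θ n) x‖ * c) := by ring
      _ ≤ ‖x‖⁻¹ * (‖(T ^ θ n) x‖ * ‖f (w n)‖) := by gcongr
  have hgrow : Tendsto (fun n => r ^ θ n * pairNorm T Y F (θ n)) atTop atTop := by
    have h1 : Tendsto (fun n => c / ‖x‖ * (r ^ θ n * ‖(T ^ θ n) x‖)) atTop atTop :=
      hθ.const_mul_atTop (by positivity)
    refine tendsto_atTop_mono' atTop ?_ h1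
    filter_upwards [hlow] with n hn
    calc c / ‖x‖ * (r ^ θ n * ‖(T ^ θ n) x‖) = r ^ θ n * (c / ‖x‖ * ‖(T ^ θ n) x‖) := by ring
      _ ≤ r ^ θ n * pairNorm T Y F (θ n) := by gcongr
  obtain ⟨O, -, ⟨⟨⟨y, hyY⟩, ⟨f, hfF⟩⟩, hp⟩, δ, hδ, K, hK⟩ :=
    core T r hr hnot Y F hYc hFc θ hgrow
  obtain ⟨l, hl⟩ := Submodule.mem_span_singleton.mp hyY
  have hUf : U f = 0 := (hFmem f).mp hfF
  have hlower : ∀ᶠ n in atTop, δ * (c / ‖x‖) ≤ ‖l‖ * ‖f (w n)‖ := by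
    filter_upwards [hlow, eventually_ge_atTop K, hθ.eventually_gt_atTop 0] with n hn hnK hn0
    have hpos : 0 < ‖(T ^ θ n) x‖ := (pos_iff_pos_of_mul_pos hn0).mp (pow_pos hr _)
    have h1 := hK _ hp n hnK
    have h2 : ‖f ((T ^ θ n) y)‖ = ‖(T ^ θ n) x‖ * (‖l‖ * ‖f (w n)‖) := by
      rw [← hl, map_smul, map_smul, norm_smul, hfw]; ring
    have h3 : δ * (c / ‖x‖ * ‖(T ^ θ n) x‖) ≤ ‖(T ^ θ n) x‖ * (‖l‖ * ‖f (w n)‖) := by
      rw [← h2]
      exact (mul_le_mul_of_nonneg_left hn hδ.le).trans h1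
    have h4 : ‖(T ^ θ n) x‖ * (δ * (c / ‖x‖)) ≤ ‖(T ^ θ n) x‖ * (‖l‖ * ‖f (w n)‖) := by
      calc _ = δ * (c / ‖x‖ * ‖(T ^ θ n) x‖) := by ring
        _ ≤ _ := h3
    exact le_of_mul_le_mul_left h4 hpos
  have hl0 : Tendsto (fun n => ‖l‖ * ‖f (w n)‖) (hyperfilter ℕ : Filter ℕ) (𝓝 0) := by
    have h1 := ((hlim f).norm).const_mul ‖l‖
    rw [hUf, norm_zero, mul_zero] at h1
    exact h1
  have hsm : ∀ᶠ n in (hyperfilter ℕ : Filter ℕ), ‖l‖ * ‖f (w n)‖ < δ * (c / ‖x‖) :=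
    hl0.eventually_lt_const (by positivity)
  have hlo : ∀ᶠ n in (hyperfilter ℕ : Filter ℕ), δ * (c / ‖x‖) ≤ ‖l‖ * ‖f (w n)‖ :=
    Nat.hyperfilter_le_atTop hlower
  obtain ⟨n, h1, h2⟩ := (hsm.and hlo).exists
  linarith

end Pool.Agent.Results.MP_dcf2cf_an.CompactOrbits
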