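import Mathlib

/-!
# MP_dcf2cf_an: real multiples of weakly numerically hypercyclic operators

Suppose `T` is weakly numerically hypercyclic, `r > 1` and `r T` is not.  Then `T` is dominated:
for all closed subspaces `Y ≤ X`, `F ≤ X*` and every sequence of exponents `φ k` along which
`r ^ φ k * M (φ k) → ∞`, where `M n = sup {|f (T^n y)| : y ∈ Y, f ∈ F, ‖y‖, ‖f‖ ≤ 1}`, there is a
relatively open nonempty set of pairs `(y, f)` in `Y × F` with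
`|f (T^(φ k) y)| ≥ δ M (φ k)` for all large `k`.  For `Y = X`, `F = X*`, `φ k = k` the growth
condition is automatic.
-/

open Filter Topology

namespace Pool.Agent.Results.MP_dcf2cf_an.Domination

/-- `T` is weakly numerically hypercyclic: some numerical orbit `{f (T^n x)}` is dense in `ℂ`
(the equivalent form given in the problem file, no normalisation). -/
def WNH {X : Type*} [NormedAddCommGroup X] [NormedSpace ℂ X] (T : X →L[ℂ] X) : Prop :=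
  ∃ (x : X) (f : X →L[ℂ] ℂ), Dense (Set.range fun n : ℕ => f ((T ^ n) x))

variable {X : Type*} [NormedAddCommGroup X] [NormedSpace ℂ X]

/-- `sup {|f (T^n y)| : y ∈ Y, f ∈ F, ‖y‖ ≤ 1, ‖f‖ ≤ 1}` -/
noncomputable def pairNorm (T : X →L[ℂ] X) (Y : Submodule ℂ X) (F : Submodule ℂ (X →L[ℂ] ℂ))
    (n : ℕ) : ℝ :=
  sSup {t : ℝ | ∃ y ∈ Y, ∃ f ∈ F, ‖y‖ ≤ 1 ∧ ‖f‖ ≤ 1 ∧ t = ‖f ((T ^ n) y)‖}

/-- a quadratic `A + B s + C s²` has a root with `‖s‖² ≤ ‖A/C‖` -/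
lemma quad_root (A B C : ℂ) (hC : C ≠ 0) :
    ∃ s : ℂ, A + B * s + C * s ^ 2 = 0 ∧ ‖s‖ ^ 2 ≤ ‖A‖ / ‖C‖ := by
  obtain ⟨w, hw⟩ := IsAlgClosed.exists_pow_nat_eq (B ^ 2 - 4 * A * C) (n := 2) (by norm_num)
  have h1 : A + B * ((-B + w) / (2 * C)) + C * ((-B + w) / (2 * C)) ^ 2 = 0 := by
    field_simp
    linear_combination hw
  have h2 : A + B * ((-B - w) / (2 * C)) + C * ((-B - w) / (2 * C)) ^ 2 = 0 := by
    field_simp
    linear_combination hw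
  have hprod : ((-B + w) / (2 * C)) * ((-B - w) / (2 * C)) = A / C := by
    field_simp
    linear_combination (-1 : ℂ) * hw
  have hn : ‖(-B + w) / (2 * C)‖ * ‖(-B - w) / (2 * C)‖ = ‖A‖ / ‖C‖ := by
    rw [← norm_mul, hprod, norm_div]
  rcases le_total ‖(-B + w) / (2 * C)‖ ‖(-B - w) / (2 * C)‖ with h | h
  · refine ⟨_, h1, ?_⟩
    rw [← hn, pow_two]
    exact mul_le_mul_of_nonneg_left h (norm_nonneg _)
  · refine ⟨_, h2, ?_⟩
    rw [← hn, pow_two]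
    exact mul_le_mul_of_nonneg_right h (norm_nonneg _)

/-- if some power has norm `< 1` then all powers are bounded -/
lemma bounded_of_norm_lt_one (T : X →L[ℂ] X) (m : ℕ) (hm : 0 < m) (h : ‖T ^ m‖ < 1) :
    ∃ C : ℝ, ∀ n, ‖T ^ n‖ ≤ C := by
  classical
  refine ⟨∑ j ∈ Finset.range m, ‖T ^ j‖, fun n => ?_⟩
  have hn : n = m * (n / m) + n % m := (Nat.div_add_mod n m).symm
  have h1 : ‖T ^ n‖ ≤ ‖T ^ (n % m)‖ := by
    rcases Nat.eq_zero_or_pos (n / m) with h0 | h0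
    · rw [h0] at hn
      simp only [mul_zero, zero_add] at hn
      rw [← hn]
    · conv_lhs => rw [hn]
      rw [pow_add, pow_mul]
      calc ‖(T ^ m) ^ (n / m) * T ^ (n % m)‖ ≤ ‖(T ^ m) ^ (n / m)‖ * ‖T ^ (n % m)‖ :=
            norm_mul_le _ _
        _ ≤ ‖T ^ m‖ ^ (n / m) * ‖T ^ (n % m)‖ := by
            gcongr
            exact norm_pow_le' _ h0
        _ ≤ 1 * ‖T ^ (n % m)‖ := by
            gcongr
            exact pow_le_one₀ (norm_nonneg _) h.le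
        _ = _ := one_mul _
  refine h1.trans ?_
  exact Finset.single_le_sum (f := fun j => ‖T ^ j‖) (fun j _ => norm_nonneg _)
    (Finset.mem_range.mpr (Nat.mod_lt _ hm))

/-- a weakly numerically hypercyclic operator has `‖T^n‖ ≥ 1` for `n ≥ 1` -/
lemma one_le_norm_pow (T : X →L[ℂ] X) (hT : WNH T) (m : ℕ) (hm : 0 < m) : 1 ≤ ‖T ^ m‖ := by
  by_contra hlt
  push Not at hlt
  obtain ⟨C, hC⟩ := bounded_of_norm_lt_one T m hm hlt
  obtain ⟨x, f, hd⟩ := hT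
  have hb : ∀ n, ‖f ((T ^ n) x)‖ ≤ ‖f‖ * (C * ‖x‖) := by
    intro n
    calc ‖f ((T ^ n) x)‖ ≤ ‖f‖ * ‖(T ^ n) x‖ := f.le_opNorm _
      _ ≤ ‖f‖ * (‖T ^ n‖ * ‖x‖) := by gcongr; exact (T ^ n).le_opNorm _
      _ ≤ ‖f‖ * (C * ‖x‖) := by gcongr; exact hC n
  set K := ‖f‖ * (C * ‖x‖) with hK
  have hK0 : 0 ≤ K := (norm_nonneg _).trans (hb 0)
  have hsub : Set.range (fun n : ℕ => f ((T ^ n) x)) ⊆ Metric.closedBall (0 : ℂ) K := by
    rintro _ ⟨n, rfl⟩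
    simpa using hb n
  have hcl : closure (Set.range (fun n : ℕ => f ((T ^ n) x))) ⊆ Metric.closedBall (0 : ℂ) K :=
    closure_minimal hsub Metric.isClosed_closedBall
  rw [hd.closure_eq] at hcl
  have hmem := hcl (Set.mem_univ ((K + 1 : ℝ) : ℂ))
  rw [mem_closedBall_zero_iff, Complex.norm_real, Real.norm_of_nonneg (by linarith)] at hmem
  linarith

/-- the perturbation step -/
lemma perturb (T : X →L[ℂ] X) (Y : Submodule ℂ X) (F : Submodule ℂ (X →L[ℂ] ℂ))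
    (r : ℝ) (hr : 0 < r) (n : ℕ) (hM : 0 < pairNorm T Y F n)
    (x₀ : Y) (f₀ : F) (v : ℂ) (η : ℝ) (hη : 0 < η)
    (h1 : ‖(f₀ : X →L[ℂ] ℂ) ((T ^ n) x₀)‖ < η ^ 2 / 4 * pairNorm T Y F n)
    (h2 : ‖v‖ ≤ η ^ 2 / 4 * (r ^ n * pairNorm T Y F n)) :
    ∃ (x : Y) (f : F), ‖x.1 - x₀.1‖ ≤ η ∧ ‖f.1 - f₀.1‖ ≤ η ∧
      (r : ℂ) ^ n * (f : X →L[ℂ] ℂ) ((T ^ n) x) = v := by
  have hrn : (0 : ℝ) < r ^ n := pow_pos hr n
  have hrc : ((r : ℂ) ^ n) ≠ 0 := pow_ne_zero _ (by exact_mod_cast hr.ne')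
  set M := pairNorm T Y F n with hMdef
  -- a pair on which the norm is almost attained
  obtain ⟨y, hyY, h, hhF, hy1, hh1, hyh⟩ : ∃ y ∈ Y, ∃ h ∈ F, ‖y‖ ≤ 1 ∧ ‖h‖ ≤ 1 ∧
      M / 2 < ‖h ((T ^ n) y)‖ := by
    have hne : {t : ℝ | ∃ y ∈ Y, ∃ f ∈ F, ‖y‖ ≤ 1 ∧ ‖f‖ ≤ 1 ∧ t = ‖f ((T ^ n) y)‖}.Nonempty :=
      ⟨‖(0 : X →L[ℂ] ℂ) ((T ^ n) 0)‖, 0, Y.zero_mem, 0, F.zero_mem, by simp, by simp, rfl⟩
    obtain ⟨t, ⟨y, hy, f, hf, a1, a2, rfl⟩, ht⟩ := exists_lt_of_lt_csSup hne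
      (show M / 2 < sSup _ from half_lt_self hM)
    exact ⟨y, hy, f, hf, a1, a2, ht⟩
  have hCpos : 0 < ‖h ((T ^ n) y)‖ := lt_trans (by positivity) hyh
  have hC0 : h ((T ^ n) y) ≠ 0 := norm_pos_iff.mp hCpos
  obtain ⟨s, hs, hsn⟩ := quad_root ((f₀ : X →L[ℂ] ℂ) ((T ^ n) x₀) - v / (r : ℂ) ^ n)
    (h ((T ^ n) x₀) + (f₀ : X →L[ℂ] ℂ) ((T ^ n) y)) (h ((T ^ n) y)) hC0
  have hA : ‖(f₀ : X →L[ℂ] ℂ) ((T ^ n) x₀) - v / (r : ℂ) ^ n‖ ≤ η ^ 2 / 2 * M := by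
    have hv : ‖v / (r : ℂ) ^ n‖ ≤ η ^ 2 / 4 * M := by
      rw [norm_div, norm_pow, Complex.norm_real, Real.norm_of_nonneg hr.le, div_le_iff₀ hrn]
      calc ‖v‖ ≤ η ^ 2 / 4 * (r ^ n * M) := h2
        _ = η ^ 2 / 4 * M * r ^ n := by ring
    calc _ ≤ ‖(f₀ : X →L[ℂ] ℂ) ((T ^ n) x₀)‖ + ‖v / (r : ℂ) ^ n‖ := norm_sub_le _ _
      _ ≤ _ := by linarith
  have hs2 : ‖s‖ ^ 2 ≤ η ^ 2 := by
    refine hsn.trans ?_
    rw [div_le_iff₀ hCpos]
    calc _ ≤ η ^ 2 / 2 * M := hA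
      _ = η ^ 2 * (M / 2) := by ring
      _ ≤ η ^ 2 * ‖h ((T ^ n) y)‖ := by gcongr
  have hsη : ‖s‖ ≤ η := (sq_le_sq₀ (norm_nonneg _) hη.le).mp hs2
  have hgF : f₀.1 + s • h ∈ F := F.add_mem f₀.2 (F.smul_mem s hhF)
  have hgY : x₀.1 + s • y ∈ Y := Y.add_mem x₀.2 (Y.smul_mem s hyY)
  refine ⟨⟨x₀.1 + s • y, hgY⟩, ⟨f₀.1 + s • h, hgF⟩, ?_, ?_, ?_⟩
  · show ‖x₀.1 + s • y - x₀.1‖ ≤ η
    rw [add_sub_cancel_left, norm_smul]
    calc ‖s‖ * ‖y‖ ≤ η * 1 := by gcongr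
      _ = η := mul_one _
  · show ‖f₀.1 + s • h - f₀.1‖ ≤ η
    rw [add_sub_cancel_left, norm_smul]
    calc ‖s‖ * ‖h‖ ≤ η * 1 := by gcongr
      _ = η := mul_one _
  · have hval : (f₀.1 + s • h) ((T ^ n) (x₀.1 + s • y)) = v / (r : ℂ) ^ n := by
      have e1 : (T ^ n) (x₀.1 + s • y) = (T ^ n) x₀.1 + s • (T ^ n) y := by
        rw [map_add, map_smul]
      have e2 : (f₀.1 + s • h) ((T ^ n) x₀.1 + s • (T ^ n) y)
          = f₀.1 ((T ^ n) x₀.1) + s * f₀.1 ((T ^ n) y)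
            + s * (h ((T ^ n) x₀.1) + s * h ((T ^ n) y)) := by
        show f₀.1 ((T ^ n) x₀.1 + s • (T ^ n) y) + s • h ((T ^ n) x₀.1 + s • (T ^ n) y) = _
        rw [map_add, map_add, map_smul, map_smul]
        simp only [smul_eq_mul]
      rw [e1, e2]
      linear_combination hs
    show (r : ℂ) ^ n * (f₀.1 + s • h) ((T ^ n) (x₀.1 + s • y)) = v
    rw [hval]
    field_simp

/-- **Core theorem.** -/
theorem core [CompleteSpace X] (T : X →L[ℂ] X) (r : ℝ) (hr : 0 < r)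
    (hnot : ¬ WNH ((r : ℂ) • T)) (Y : Submodule ℂ X) (F : Submodule ℂ (X →L[ℂ] ℂ))
    (hYc : IsClosed (Y : Set X)) (hFc : IsClosed (F : Set (X →L[ℂ] ℂ))) (φ : ℕ → ℕ)
    (hgrow : Tendsto (fun k => r ^ φ k * pairNorm T Y F (φ k)) atTop atTop) :
    ∃ O : Set (Y × F), IsOpen O ∧ O.Nonempty ∧
      ∃ δ : ℝ, 0 < δ ∧ ∃ K : ℕ, ∀ p ∈ O, ∀ k ≥ K,
        δ * pairNorm T Y F (φ k) ≤ ‖(p.2 : X →L[ℂ] ℂ) ((T ^ φ k) (p.1 : X))‖ := by
  have : CompleteSpace Y := hYc.completeSpace_coe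
  have : CompleteSpace F := hFc.completeSpace_coe
  -- the value map
  let val : ℕ → Y × F → ℂ := fun k p =>
    (r : ℂ) ^ φ k * (p.2 : X →L[ℂ] ℂ) ((T ^ φ k) (p.1 : X))
  have hval_cont : ∀ n, Continuous (val n) := by
    intro n
    refine continuous_const.mul ?_
    exact (continuous_subtype_val.comp continuous_snd).clm_apply
      ((T ^ φ n).continuous.comp (continuous_subtype_val.comp continuous_fst))
  obtain ⟨D, hDc, hDd⟩ := TopologicalSpace.exists_countable_dense ℂ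
  let U : ℂ × ℕ → Set (Y × F) := fun q => {p | ∃ n, ‖val n p - q.1‖ < 1 / ((q.2 : ℝ) + 1)}
  have hUopen : ∀ q, IsOpen (U q) := by
    intro q
    have : U q = ⋃ n, {p | ‖val n p - q.1‖ < 1 / ((q.2 : ℝ) + 1)} := by
      ext p; simp [U]
    rw [this]
    refine isOpen_iUnion fun n => ?_
    exact isOpen_lt (((hval_cont n).sub continuous_const).norm) continuous_const
  -- not all `U q`, `q ∈ D × ℕ`, are dense
  have hex : ∃ q : ℂ × ℕ, ¬ Dense (U q) := by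
    by_contra hall
    push Not at hall
    have hcount : (D ×ˢ (Set.univ : Set ℕ)).Countable := hDc.prod Set.countable_univ
    have hdense : Dense (⋂ q ∈ D ×ˢ (Set.univ : Set ℕ), U q) :=
      dense_biInter_of_isOpen (fun q _ => hUopen q) hcount (fun q _ => hall q)
    obtain ⟨p, hp⟩ := hdense.nonempty
    apply hnot
    refine ⟨p.1, p.2, ?_⟩
    rw [Metric.dense_iff]
    intro z ε hε
    obtain ⟨v, hvD, hv⟩ := hDd.exists_dist_lt z (half_pos hε)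
    obtain ⟨k, hk⟩ := exists_nat_one_div_lt (half_pos hε)
    have hpU : p ∈ U (v, k) := by
      have := Set.mem_iInter₂.mp hp (v, k) ⟨hvD, Set.mem_univ _⟩
      exact this
    obtain ⟨n, hn⟩ := hpU
    refine ⟨val n p, ?_, ⟨φ n, ?_⟩⟩
    · rw [Metric.mem_ball]
      calc dist (val n p) z ≤ dist (val n p) v + dist v z := dist_triangle _ _ _
        _ < ε / 2 + ε / 2 := by
            refine add_lt_add ?_ ?_
            · rw [dist_eq_norm]; exact hn.trans hk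
            · rw [dist_comm]; exact hv
        _ = ε := add_halves ε
    · show (p.2 : X →L[ℂ] ℂ) ((((r : ℂ) • T) ^ φ n) (p.1 : X)) = val n p
      rw [smul_pow]
      simp [val]
  obtain ⟨⟨v, k⟩, hnd⟩ := hex
  -- an open ball disjoint from `U (v, k)`
  have hnd' : ∃ p₀ : Y × F, ∃ ε : ℝ, 0 < ε ∧ ∀ p : Y × F, dist p p₀ < ε → p ∉ U (v, k) := by
    rw [Metric.dense_iff] at hnd
    push Not at hnd
    obtain ⟨p₀, ε, hε, hem⟩ := hnd
    refine ⟨p₀, ε, hε, fun p hp hpU => ?_⟩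
    have : p ∈ Metric.ball p₀ ε ∩ U (v, k) := ⟨hp, hpU⟩
    rw [hem] at this
    exact this
  obtain ⟨p₀, ε, hε, hdis⟩ := hnd'
  set η := ε / 4 with hη
  have hη0 : 0 < η := by positivity
  -- `r^n M n` is eventually large
  obtain ⟨N₀, hN₀⟩ : ∃ N₀ : ℕ, ∀ n ≥ N₀,
      max ‖v‖ 1 ≤ η ^ 2 / 4 * (r ^ φ n * pairNorm T Y F (φ n)) := by
    have ht : Tendsto (fun n : ℕ => η ^ 2 / 4 * (r ^ φ n * pairNorm T Y F (φ n))) atTop atTop :=
      hgrow.const_mul_atTop (by positivity)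
    exact eventually_atTop.mp (ht.eventually_ge_atTop (max ‖v‖ 1))
  refine ⟨Metric.ball p₀ (ε / 2), Metric.isOpen_ball, ⟨p₀, Metric.mem_ball_self (by positivity)⟩,
    η ^ 2 / 4, by positivity, N₀, ?_⟩
  intro p hp n hn
  by_contra hlt
  push Not at hlt
  have h2 := hN₀ n hn
  have hMpos : 0 < pairNorm T Y F (φ n) := by
    have h3 : 0 < η ^ 2 / 4 * (r ^ φ n * pairNorm T Y F (φ n)) :=
      lt_of_lt_of_le (lt_of_lt_of_le one_pos (le_max_right _ _)) h2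
    have h4 : 0 < r ^ φ n * pairNorm T Y F (φ n) := by
      by_contra hcon
      push Not at hcon
      have : η ^ 2 / 4 * (r ^ φ n * pairNorm T Y F (φ n)) ≤ 0 :=
        mul_nonpos_of_nonneg_of_nonpos (by positivity) hcon
      linarith
    exact (pos_iff_pos_of_mul_pos h4).mp (pow_pos hr _)
  obtain ⟨x, f, hx, hf, hxf⟩ := perturb T Y F r hr (φ n) hMpos p.1 p.2 v η hη0 hlt
    ((le_max_left _ _).trans h2)
  refine hdis (x, f) ?_ ⟨n, ?_⟩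
  · rw [Metric.mem_ball] at hp
    have hd : dist (x, f) p ≤ η := by
      rw [Prod.dist_eq, Subtype.dist_eq, Subtype.dist_eq, dist_eq_norm, dist_eq_norm]
      exact max_le hx hf
    calc dist (x, f) p₀ ≤ dist (x, f) p + dist p p₀ := dist_triangle _ _ _
      _ < η + ε / 2 + 0 := by linarith
      _ ≤ ε := by rw [hη]; linarith
  · have : val n (x, f) = v := hxf
    rw [this, sub_self, norm_zero]
    positivity

/-- For `Y = X`, `F = X*` the supremum is the operator norm. -/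
lemma pairNorm_top (T : X →L[ℂ] X) (n : ℕ) : pairNorm T ⊤ ⊤ n = ‖T ^ n‖ := by
  unfold pairNorm
  apply le_antisymm
  · refine csSup_le ⟨_, 0, trivial, 0, trivial, by simp, by simp, rfl⟩ ?_
    rintro t ⟨y, -, f, -, hy, hf, rfl⟩
    calc ‖f ((T ^ n) y)‖ ≤ ‖f‖ * ‖(T ^ n) y‖ := f.le_opNorm _
      _ ≤ 1 * (‖T ^ n‖ * ‖y‖) := by gcongr; exact (T ^ n).le_opNorm _
      _ ≤ 1 * (‖T ^ n‖ * 1) := by gcongr
      _ = ‖T ^ n‖ := by ring
  · have hbdd : BddAbove {t : ℝ | ∃ y ∈ (⊤ : Submodule ℂ X), ∃ f ∈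
        (⊤ : Submodule ℂ (X →L[ℂ] ℂ)), ‖y‖ ≤ 1 ∧ ‖f‖ ≤ 1 ∧ t = ‖f ((T ^ n) y)‖} := by
      refine ⟨‖T ^ n‖, ?_⟩
      rintro t ⟨y, -, f, -, hy, hf, rfl⟩
      calc ‖f ((T ^ n) y)‖ ≤ ‖f‖ * ‖(T ^ n) y‖ := f.le_opNorm _
        _ ≤ 1 * (‖T ^ n‖ * ‖y‖) := by gcongr; exact (T ^ n).le_opNorm _
        _ ≤ 1 * (‖T ^ n‖ * 1) := by gcongr
        _ = ‖T ^ n‖ := by ring
    refine ContinuousLinearMap.opNorm_le_of_unit_norm ?_ ?_
    · refine le_csSup_of_le hbdd ⟨0, trivial, 0, trivial, by simp, by simp, rfl⟩ (norm_nonneg _)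
    · intro y hy
      by_cases h0 : (T ^ n) y = 0
      · rw [h0, norm_zero]
        exact le_csSup_of_le hbdd ⟨0, trivial, 0, trivial, by simp, by simp, rfl⟩ (norm_nonneg _)
      · obtain ⟨g, hg1, hg2⟩ := exists_dual_vector ℂ ((T ^ n) y) (norm_ne_zero_iff.mpr h0)
        refine le_csSup_of_le hbdd ⟨y, trivial, g, trivial, hy.le, hg1.le, rfl⟩ ?_
        rw [hg2]; simp

/-- **Theorem.** Let `T` be weakly numerically hypercyclic on a complex Banach space and let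
`r > 1` be such that `r T` is not weakly numerically hypercyclic. -/
theorem result {X : Type*} [NormedAddCommGroup X] [NormedSpace ℂ X] [CompleteSpace X]
    (T : X →L[ℂ] X) (hT : WNH T) (r : ℝ) (hr : 1 < r) (hnot : ¬ WNH ((r : ℂ) • T)) :
    (∃ (x : X) (f : X →L[ℂ] ℂ) (δ : ℝ), 0 < δ ∧ ∃ N : ℕ, ∀ n ≥ N,
      δ * ‖T ^ n‖ ≤ ‖f ((T ^ n) x)‖) ∧
    (∀ (Y : Submodule ℂ X) (F : Submodule ℂ (X →L[ℂ] ℂ)), IsClosed (Y : Set X) →
      IsClosed (F : Set (X →L[ℂ] ℂ)) → ∀ φ : ℕ → ℕ,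
      Tendsto (fun k => r ^ φ k * pairNorm T Y F (φ k)) atTop atTop →
      ∃ O : Set (Y × F), IsOpen O ∧ O.Nonempty ∧
        ∃ δ : ℝ, 0 < δ ∧ ∃ K : ℕ, ∀ p ∈ O, ∀ k ≥ K,
          δ * pairNorm T Y F (φ k) ≤ ‖(p.2 : X →L[ℂ] ℂ) ((T ^ φ k) (p.1 : X))‖) := by
  have hr0 : 0 < r := by linarith
  refine ⟨?_, fun Y F hY hF φ hg => core T r hr0 hnot Y F hY hF φ hg⟩
  have hgrow : Tendsto (fun k => r ^ (id k) * pairNorm T ⊤ ⊤ (id k)) atTop atTop := by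
    refine tendsto_atTop_mono' atTop ?_ (tendsto_pow_atTop_atTop_of_one_lt hr)
    filter_upwards [eventually_ge_atTop 1] with n hn
    rw [id, pairNorm_top]
    exact le_mul_of_one_le_right (by positivity) (one_le_norm_pow T hT n hn)
  obtain ⟨O, -, ⟨p, hp⟩, δ, hδ, K, hK⟩ := core T r hr0 hnot ⊤ ⊤ (by simp) (by simp) id hgrow
  refine ⟨p.1, p.2, δ, hδ, K, fun n hn => ?_⟩
  have := hK p hp n hn
  rw [id, pairNorm_top] at this
  exact this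

end Pool.Agent.Results.MP_dcf2cf_an.Domination
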